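import Pool.Agent.U920.CS.Sharp

/-!
# Turán's problem for `K_{r+1}^r` in Cayley sum hypergraphs of finite abelian groups

For a finite abelian group `G`, a set `S ⊆ G` and `r ≥ 2` the Cayley sum hypergraph `cayleySum r S`
has the elements of `G` as vertices and the sets of `r` elements with sum in `S` as edges.  The
largest density of such an `r`-graph without `K_{r+1}^r` is determined: it is `1/p + o(1)`, where
`p` is the least prime factor of `gcd(r, |G|)`, uniformly for all groups, and `o(1)` if
`gcd(r, |G|) = 1`.  So the Turán density of `K_{r+1}^r` within the Cayley sum hypergraphs is `1/p`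
for the least prime factor `p` of `r`.

Outline.  `K_{r+1}^r` occurs exactly if some `r + 1` distinct elements of `S` have a sum in `rG`.
Let `Q = G / rG`.  If `Q` is small, the classes with at least `r + 1` elements of `S` form a set
`A ⊆ Q` with `0 ∉ (r+1)A`, and Kneser's theorem gives `p |A| ≤ |Q|`, since all subgroups of `Q` have
an index without prime factors less than `p`.  If `Q` is large, distinct classes are enough; the
popular sums of `j` elements of a set of density `> 1/p` are followed by Kneser's theorem and the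
arithmetic removal lemma until they are almost everything.
-/

set_option autoImplicit false

open Finset

namespace Pool.Agent.Results.MP_a4d830_co.CayleySumHypergraphs

open Pool.Agent.U920.CS

/-- (1) Let `r ≥ 2`, and let `p` be a prime factor of `r` such that no smaller prime divides both
`r` and `|G|`.  If `cayleySum r S` contains no `K_{r+1}^r`, then
`|S| ≤ |G| / p + r [G : rG]`.
(2) Let `r ≥ 2`, let `p` be a prime factor of `r`, and let `ε > 0`.  For all sufficiently large
groups `G`: (a) if no prime less than `p` divides both `r` and `|G|`, then every Cayley sum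
hypergraph of `G` without `K_{r+1}^r` has `|S| ≤ (1/p + ε) |G|` and at most
`(1/p + ε) C(|G|, r)` edges; (b) if `p` divides `|G|`, there is a set `S` of exactly `|G| / p`
elements such that `cayleySum r S` contains no `K_{r+1}^r` and has at least
`(1/p - ε) C(|G|, r)` edges.
(3) If `|G|` and `r` are coprime, then `cayleySum r S` contains no `K_{r+1}^r` if and only if
`|S| ≤ r`. -/
theorem result :
    (∀ r p : ℕ, 2 ≤ r → p.Prime → p ∣ r →
      (∀ (G : Type) [AddCommGroup G] [Fintype G] [DecidableEq G],
        (∀ q : ℕ, q.Prime → q ∣ r → q ∣ Fintype.card G → p ≤ q) →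
        ∀ S : Finset G, NoClique r (cayleySum r S) →
          p * S.card ≤ Fintype.card G + p * r * (mulSub G r).index) ∧
      (∀ ε : ℝ, 0 < ε → ∃ n₀ : ℕ, ∀ (G : Type) [AddCommGroup G] [Fintype G] [DecidableEq G],
        n₀ ≤ Fintype.card G →
        ((∀ q : ℕ, q.Prime → q ∣ r → q ∣ Fintype.card G → p ≤ q) →
          ∀ S : Finset G, NoClique r (cayleySum r S) →
            (S.card : ℝ) ≤ (1 / p + ε) * Fintype.card G ∧
            ((cayleySum r S).card : ℝ) ≤ (1 / p + ε) * ((Fintype.card G).choose r : ℝ)) ∧
        (p ∣ Fintype.card G →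
          ∃ S : Finset G, NoClique r (cayleySum r S) ∧ p * S.card = Fintype.card G ∧
            (1 / p - ε) * ((Fintype.card G).choose r : ℝ) ≤ ((cayleySum r S).card : ℝ)))) ∧
    (∀ (r : ℕ) (G : Type) [AddCommGroup G] [Fintype G] [DecidableEq G],
      (Fintype.card G).Coprime r → ∀ S : Finset G,
        NoClique r (cayleySum r S) ↔ S.card ≤ r) := by
  refine ⟨?_, fun r G _ _ _ hG S => coprime_case hG S⟩
  intro r p hr hp hpr
  have hp' : (0 : ℝ) < p := by exact_mod_cast hp.pos
  refine ⟨fun G _ _ _ hq S hS => card_le_explicit hr hp hpr hq S (noClique_iff.1 hS), ?_⟩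
  intro ε hε
  obtain ⟨n₁, hn₁⟩ := card_le_asymp hr hp hpr (ε / 2) (by positivity)
  obtain ⟨n₂, hn₂⟩ := exists_nat_gt (max (2 * (1 + ε) * r / ε) (2 * r / ε))
  refine ⟨n₁ + n₂ + r, ?_⟩
  intro G _ _ _ hn
  have hn2 : (n₂ : ℝ) ≤ Fintype.card G := by
    have : n₂ ≤ Fintype.card G := by omega
    exact_mod_cast this
  have hA : 2 * (1 + ε) * r < ε * Fintype.card G := by
    have h1 := (le_max_left (2 * (1 + ε) * r / ε) (2 * r / ε)).trans_lt hn₂
    have h2 := h1.trans_le hn2
    rw [div_lt_iff₀ hε] at h2
    linarith
  have hB : 2 * r < ε * Fintype.card G := by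
    have h1 := (le_max_right (2 * (1 + ε) * r / ε) (2 * r / ε)).trans_lt hn₂
    have h2 := h1.trans_le hn2
    rw [div_lt_iff₀ hε] at h2
    linarith
  have hp1 : 1 / (p : ℝ) ≤ 1 := by
    rw [div_le_one hp']
    exact_mod_cast hp.one_lt.le
  refine ⟨?_, ?_⟩
  · intro hq S hS
    have h1 := hn₁ G hq (by omega) S (noClique_iff.1 hS)
    refine ⟨h1.trans ?_, ?_⟩
    · apply mul_le_mul_of_nonneg_right _ (by positivity)
      linarith
    · apply edges_le_of_card hr S (a := 1 / p + ε / 2) (b := 1 / p + ε) (by positivity)
        (by linarith) _ h1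
      have h2 : (1 / (p : ℝ) + ε) * r ≤ (1 + ε) * r :=
        mul_le_mul_of_nonneg_right (by linarith) (by positivity)
      linarith
  · intro hpG
    obtain ⟨S, hS1, hS2⟩ := sharp hp hpr hpG
    refine ⟨S, hS1, hS2, ?_⟩
    apply edges_ge_of_card hr S (b := 1 / p) (by linarith) _ hp1 _ (by omega)
    · linarith
    · have h3 : (p : ℝ) * S.card = Fintype.card G := by exact_mod_cast hS2
      rw [← h3]
      field_simp

end Pool.Agent.Results.MP_a4d830_co.CayleySumHypergraphs
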